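import Pool.Agent.H5.FL.Stm3

set_option autoImplicit false

open MeasureTheory ProbabilityTheory Filter Topology
open scoped NNReal ENNReal

universe u

namespace H60.FL

open H5.FL

/-- `g(ξ) = h_R(e^{-ξ})` -/
noncomputable def gg0 (R ξ : ℝ) : ℝ := hR R (Real.exp (-ξ))
/-- its derivative -/
noncomputable def gg1 (R ξ : ℝ) : ℝ := -(R ^ 2 * Real.exp (-ξ) / (R + Real.exp (-ξ)) ^ 2)
/-- its second derivative -/
noncomputable def gg2 (R ξ : ℝ) : ℝ :=
  R ^ 2 * Real.exp (-ξ) * (R - Real.exp (-ξ)) / (R + Real.exp (-ξ)) ^ 3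

lemma d_exp (ξ : ℝ) : HasDerivAt (fun ξ => Real.exp (-ξ)) (-Real.exp (-ξ)) ξ := by
  have h := (Real.hasDerivAt_exp (-ξ)).comp ξ (hasDerivAt_neg ξ)
  have e : Real.exp (-ξ) * -1 = -Real.exp (-ξ) := by ring
  rw [e] at h
  exact h

lemma d_gg0 {R : ℝ} (hR' : 0 < R) (ξ : ℝ) : HasDerivAt (gg0 R) (gg1 R ξ) ξ := by
  have hy := Real.exp_pos (-ξ)
  have hne : R + Real.exp (-ξ) ≠ 0 := by positivity
  have h1 := ((d_exp ξ).const_mul R).div ((d_exp ξ).const_add R) hne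
  have e : (R * -Real.exp (-ξ) * (R + Real.exp (-ξ)) - R * Real.exp (-ξ) * -Real.exp (-ξ)) /
      (R + Real.exp (-ξ)) ^ 2 = gg1 R ξ := by
    unfold gg1
    field_simp
    ring
  rw [e] at h1
  exact h1

lemma d_gg1 {R : ℝ} (hR' : 0 < R) (ξ : ℝ) : HasDerivAt (gg1 R) (gg2 R ξ) ξ := by
  have hy := Real.exp_pos (-ξ)
  have hne : R + Real.exp (-ξ) ≠ 0 := by positivity
  have hne2 : (R + Real.exp (-ξ)) ^ 2 ≠ 0 := by positivity
  have h1 := (((d_exp ξ).const_mul (R ^ 2)).div (((d_exp ξ).const_add R).pow 2) hne2).neg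
  have e : -((R ^ 2 * -Real.exp (-ξ) * (R + Real.exp (-ξ)) ^ 2 - R ^ 2 * Real.exp (-ξ) *
      (((2 : ℕ) : ℝ) * (R + Real.exp (-ξ)) ^ (2 - 1) * -Real.exp (-ξ))) /
      ((R + Real.exp (-ξ)) ^ 2) ^ 2) = gg2 R ξ := by
    unfold gg2
    simp only [Nat.add_one_sub_one, pow_one, Nat.cast_ofNat]
    field_simp
    ring
  exact HasDerivAt.congr_deriv h1 e

lemma gg_bounds {R : ℝ} (hR' : 0 < R) (ξ : ℝ) :
    |gg0 R ξ| ≤ R ∧ |gg1 R ξ| ≤ R ∧ |gg2 R ξ| ≤ R := by
  unfold gg0 gg1 gg2 hR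
  set y := Real.exp (-ξ) with hy'
  have hy : 0 < y := Real.exp_pos _
  have hs : 0 < R + y := by positivity
  refine ⟨?_, ?_, ?_⟩
  · rw [abs_of_pos (by positivity), div_le_iff₀ hs]
    nlinarith
  · rw [abs_neg, abs_of_pos (by positivity), div_le_iff₀ (by positivity)]
    nlinarith [mul_pos hR' hy, mul_pos (mul_pos hR' hR') hy, mul_pos (mul_pos hR' hy) hy,
      mul_pos (mul_pos hR' hR') hR']
  · rw [abs_div, abs_of_pos (show 0 < (R + y) ^ 3 by positivity),
      div_le_iff₀ (by positivity), abs_mul, abs_of_pos (show 0 < R ^ 2 * y by positivity)]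
    have h1 : |R - y| ≤ R + y := by
      rw [abs_le]; constructor <;> linarith
    have h2 : R ^ 2 * y * |R - y| ≤ R ^ 2 * y * (R + y) := by gcongr
    have h3 : R ^ 2 * y * (R + y) ≤ R * (R + y) ^ 3 := by
      have e1 : R * (R + y) ^ 3 - R ^ 2 * y * (R + y) = R * (R + y) * (R ^ 2 + R * y + y ^ 2) := by
        ring
      have : 0 < R * (R + y) * (R ^ 2 + R * y + y ^ 2) := by positivity
      linarith
    linarith

lemma gg_sum1 {R : ℝ} (hR' : 0 < R) (ξ : ℝ) :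
    gg0 R ξ + gg1 R ξ = R * Real.exp (-ξ) ^ 2 / (R + Real.exp (-ξ)) ^ 2 := by
  have hy := Real.exp_pos (-ξ)
  have hne : R + Real.exp (-ξ) ≠ 0 := by positivity
  unfold gg0 gg1 hR
  field_simp
  ring

lemma gg_sum2 {R : ℝ} (hR' : 0 < R) (ξ : ℝ) :
    gg2 R ξ + gg1 R ξ = -(2 * R ^ 2 * Real.exp (-ξ) ^ 2 / (R + Real.exp (-ξ)) ^ 3) := by
  have hy := Real.exp_pos (-ξ)
  have hne : R + Real.exp (-ξ) ≠ 0 := by positivity
  unfold gg2 gg1
  field_simp
  ring

/-! one variable -/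

lemma one_d1 {R : ℝ} (hR' : 0 < R) (m b θ β s : ℝ) :
    HasDerivAt (fun s => gg0 R (m * s - b) * Real.cos (θ * s + β))
      (m * gg1 R (m * s - b) * Real.cos (θ * s + β)
        - θ * gg0 R (m * s - b) * Real.sin (θ * s + β)) s := by
  have h0 : HasDerivAt (fun s : ℝ => m * s - b) m s := by
    simpa using ((hasDerivAt_id s).const_mul m).sub_const b
  have h0' : HasDerivAt (fun s : ℝ => θ * s + β) θ s := by
    simpa using ((hasDerivAt_id s).const_mul θ).add_const β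
  have h1 : HasDerivAt (fun s => gg0 R (m * s - b)) (gg1 R (m * s - b) * m) s :=
    HasDerivAt.comp (h₂ := gg0 R) (h := fun s : ℝ => m * s - b) s (d_gg0 hR' (m * s - b)) h0
  have h2 : HasDerivAt (fun s => Real.cos (θ * s + β)) (-Real.sin (θ * s + β) * θ) s :=
    HasDerivAt.comp (h₂ := Real.cos) (h := fun s : ℝ => θ * s + β) s
      (Real.hasDerivAt_cos (θ * s + β)) h0'
  have h3 := h1.mul h2
  have e : gg1 R (m * s - b) * m * Real.cos (θ * s + β) + gg0 R (m * s - b) *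
      (-Real.sin (θ * s + β) * θ) = m * gg1 R (m * s - b) * Real.cos (θ * s + β)
        - θ * gg0 R (m * s - b) * Real.sin (θ * s + β) := by ring
  rw [e] at h3
  exact h3

lemma one_d2 {R : ℝ} (hR' : 0 < R) (m b θ β s : ℝ) :
    HasDerivAt (fun s => m * gg1 R (m * s - b) * Real.cos (θ * s + β)
        - θ * gg0 R (m * s - b) * Real.sin (θ * s + β))
      (m ^ 2 * gg2 R (m * s - b) * Real.cos (θ * s + β)
        - 2 * m * θ * gg1 R (m * s - b) * Real.sin (θ * s + β)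
        - θ ^ 2 * gg0 R (m * s - b) * Real.cos (θ * s + β)) s := by
  have h0 : HasDerivAt (fun s : ℝ => m * s - b) m s := by
    simpa using ((hasDerivAt_id s).const_mul m).sub_const b
  have h0' : HasDerivAt (fun s : ℝ => θ * s + β) θ s := by
    simpa using ((hasDerivAt_id s).const_mul θ).add_const β
  have h1 : HasDerivAt (fun s => gg0 R (m * s - b)) (gg1 R (m * s - b) * m) s :=
    HasDerivAt.comp (h₂ := gg0 R) (h := fun s : ℝ => m * s - b) s (d_gg0 hR' (m * s - b)) h0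
  have h1' : HasDerivAt (fun s => gg1 R (m * s - b)) (gg2 R (m * s - b) * m) s :=
    HasDerivAt.comp (h₂ := gg1 R) (h := fun s : ℝ => m * s - b) s (d_gg1 hR' (m * s - b)) h0
  have h2 : HasDerivAt (fun s => Real.cos (θ * s + β)) (-Real.sin (θ * s + β) * θ) s :=
    HasDerivAt.comp (h₂ := Real.cos) (h := fun s : ℝ => θ * s + β) s
      (Real.hasDerivAt_cos (θ * s + β)) h0'
  have h2' : HasDerivAt (fun s => Real.sin (θ * s + β)) (Real.cos (θ * s + β) * θ) s :=
    HasDerivAt.comp (h₂ := Real.sin) (h := fun s : ℝ => θ * s + β) s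
      (Real.hasDerivAt_sin (θ * s + β)) h0'
  have h3 := ((h1'.const_mul m).mul h2).sub ((h1.const_mul θ).mul h2')
  have e : m * (gg2 R (m * s - b) * m) * Real.cos (θ * s + β) + m * gg1 R (m * s - b) *
      (-Real.sin (θ * s + β) * θ) - (θ * (gg1 R (m * s - b) * m) * Real.sin (θ * s + β) +
      θ * gg0 R (m * s - b) * (Real.cos (θ * s + β) * θ)) =
      m ^ 2 * gg2 R (m * s - b) * Real.cos (θ * s + β)
        - 2 * m * θ * gg1 R (m * s - b) * Real.sin (θ * s + β)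
        - θ ^ 2 * gg0 R (m * s - b) * Real.cos (θ * s + β) := by ring
  rw [e] at h3
  exact h3

lemma iter2 {F F1 : ℝ → ℝ} {v : ℝ} {s : ℝ} (h1 : ∀ s, HasDerivAt F (F1 s) s)
    (h2 : HasDerivAt F1 v s) : iteratedDeriv 2 F s = v := by
  rw [iteratedDeriv_succ, iteratedDeriv_one]
  have : deriv F = F1 := funext fun s => (h1 s).deriv
  rw [this]
  exact h2.deriv

section
variable {N : ℕ}

/-- the constant `θ ∑_{k ≠ j} x_k + α` -/
noncomputable def bb (θ α : ℝ) (x : Fin N → ℝ) (j : Fin N) : ℝ :=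
  θ * (∑ k ∈ Finset.univ \ {j}, x k) + α

lemma sum_upd (θ α : ℝ) (x : Fin N → ℝ) (j : Fin N) (s : ℝ) :
    θ * (∑ k, Function.update x j s k) + α = θ * s + bb θ α x j := by
  unfold bb
  rw [Finset.sum_update_of_mem (Finset.mem_univ j)]
  ring

lemma sum_self (θ α : ℝ) (x : Fin N → ℝ) (j : Fin N) :
    θ * (∑ k, x k) + α = θ * x j + bb θ α x j := by
  have := sum_upd θ α x j (x j)
  rwa [Function.update_eq_self] at this

lemma fR_eq (R μ θ α : ℝ) (i : Fin N) (x τ : Fin N → ℝ) :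
    fR R μ θ α i (x, τ) = gg0 R (lin μ (x, τ) i) * Real.cos (θ * (∑ k, x k) + α) := rfl

/-- along `x_i` -/
lemma fR_xi (R μ θ α : ℝ) (i : Fin N) (x τ : Fin N → ℝ) (s : ℝ) :
    fR R μ θ α i (Function.update x i s, τ) =
      gg0 R (μ * s - (1 / 2) * μ ^ 2 * τ i) * Real.cos (θ * s + bb θ α x i) := by
  rw [fR_eq, sum_upd]
  unfold lin
  simp

/-- along `x_j`, `j ≠ i` -/
lemma fR_xj (R μ θ α : ℝ) {i j : Fin N} (hij : j ≠ i) (x τ : Fin N → ℝ) (s : ℝ) :
    fR R μ θ α i (Function.update x j s, τ) =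
      gg0 R (0 * s - (-(lin μ (x, τ) i))) * Real.cos (θ * s + bb θ α x j) := by
  rw [fR_eq, sum_upd]
  have : lin μ (Function.update x j s, τ) i = lin μ (x, τ) i := by
    unfold lin
    simp [Function.update_of_ne hij.symm]
  rw [this]
  congr 2
  ring

/-- along `τ_i` -/
lemma fR_ti (R μ θ α : ℝ) (i : Fin N) (x τ : Fin N → ℝ) (s : ℝ) :
    fR R μ θ α i (x, Function.update τ i s) =
      gg0 R (-((1 / 2) * μ ^ 2) * s - (-(μ * x i))) * Real.cos (0 * s + (θ * (∑ k, x k) + α)) := by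
  rw [fR_eq]
  have : lin μ (x, Function.update τ i s) i = -((1 / 2) * μ ^ 2) * s - (-(μ * x i)) := by
    unfold lin
    simp only [Function.update_self]
    ring
  rw [this, zero_mul, zero_add]

/-- along `τ_j`, `j ≠ i` -/
lemma fR_tj (R μ θ α : ℝ) {i j : Fin N} (hij : j ≠ i) (x τ : Fin N → ℝ) (s : ℝ) :
    fR R μ θ α i (x, Function.update τ j s) = fR R μ θ α i (x, τ) := by
  rw [fR_eq, fR_eq]
  have : lin μ (x, Function.update τ j s) i = lin μ (x, τ) i := by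
    unfold lin
    simp [Function.update_of_ne hij.symm]
  rw [this]

lemma dx_i {R : ℝ} (hR' : 0 < R) (μ θ α : ℝ) (i : Fin N) (x τ : Fin N → ℝ) :
    deriv (fun s => fR R μ θ α i (Function.update x i s, τ)) (x i) =
      μ * gg1 R (lin μ (x, τ) i) * Real.cos (θ * (∑ k, x k) + α)
        - θ * gg0 R (lin μ (x, τ) i) * Real.sin (θ * (∑ k, x k) + α) ∧
    iteratedDeriv 2 (fun s => fR R μ θ α i (Function.update x i s, τ)) (x i) =
      μ ^ 2 * gg2 R (lin μ (x, τ) i) * Real.cos (θ * (∑ k, x k) + α)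
        - 2 * μ * θ * gg1 R (lin μ (x, τ) i) * Real.sin (θ * (∑ k, x k) + α)
        - θ ^ 2 * gg0 R (lin μ (x, τ) i) * Real.cos (θ * (∑ k, x k) + α) := by
  have hf : (fun s => fR R μ θ α i (Function.update x i s, τ)) = fun s =>
      gg0 R (μ * s - (1 / 2) * μ ^ 2 * τ i) * Real.cos (θ * s + bb θ α x i) :=
    funext fun s => fR_xi R μ θ α i x τ s
  have hl : lin μ (x, τ) i = μ * x i - (1 / 2) * μ ^ 2 * τ i := rfl
  rw [hf, hl, sum_self θ α x i]
  exact ⟨(one_d1 hR' _ _ _ _ _).deriv, iter2 (one_d1 hR' _ _ _ _) (one_d2 hR' _ _ _ _ _)⟩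

lemma dx_j {R : ℝ} (hR' : 0 < R) (μ θ α : ℝ) {i j : Fin N} (hij : j ≠ i) (x τ : Fin N → ℝ) :
    deriv (fun s => fR R μ θ α i (Function.update x j s, τ)) (x j) =
      -(θ * gg0 R (lin μ (x, τ) i) * Real.sin (θ * (∑ k, x k) + α)) ∧
    iteratedDeriv 2 (fun s => fR R μ θ α i (Function.update x j s, τ)) (x j) =
      - (θ ^ 2 * gg0 R (lin μ (x, τ) i) * Real.cos (θ * (∑ k, x k) + α)) := by
  have hf : (fun s => fR R μ θ α i (Function.update x j s, τ)) = fun s =>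
      gg0 R (0 * s - (-(lin μ (x, τ) i))) * Real.cos (θ * s + bb θ α x j) :=
    funext fun s => fR_xj R μ θ α hij x τ s
  have e0 : 0 * x j - -(lin μ (x, τ) i) = lin μ (x, τ) i := by ring
  rw [hf, sum_self θ α x j]
  constructor
  · rw [(one_d1 hR' _ _ _ _ _).deriv, e0]
    ring
  · rw [iter2 (one_d1 hR' _ _ _ _) (one_d2 hR' _ _ _ _ _), e0]
    ring

lemma dt_i {R : ℝ} (hR' : 0 < R) (μ θ α : ℝ) (i : Fin N) (x τ : Fin N → ℝ) :
    deriv (fun s => fR R μ θ α i (x, Function.update τ i s)) (τ i) =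
      -((1 / 2) * μ ^ 2 * gg1 R (lin μ (x, τ) i) * Real.cos (θ * (∑ k, x k) + α)) := by
  have hf : (fun s => fR R μ θ α i (x, Function.update τ i s)) = fun s =>
      gg0 R (-((1 / 2) * μ ^ 2) * s - (-(μ * x i))) *
        Real.cos (0 * s + (θ * (∑ k, x k) + α)) :=
    funext fun s => fR_ti R μ θ α i x τ s
  have hl : -((1 / 2) * μ ^ 2) * τ i - (-(μ * x i)) = lin μ (x, τ) i := by
    unfold lin
    ring
  rw [hf, (one_d1 hR' _ _ _ _ _).deriv, hl]
  simp only [zero_mul, zero_add, sub_zero]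
  ring

lemma dt_j {R : ℝ} (μ θ α : ℝ) {i j : Fin N} (hij : j ≠ i) (x τ : Fin N → ℝ) :
    deriv (fun s => fR R μ θ α i (x, Function.update τ j s)) (τ j) = 0 := by
  have hf : (fun s => fR R μ θ α i (x, Function.update τ j s)) = fun _ =>
      fR R μ θ α i (x, τ) := funext fun s => fR_tj R μ θ α hij x τ s
  rw [hf]
  simp

lemma smooth_fR {R : ℝ} (hR' : 0 < R) (μ θ α : ℝ) (i : Fin N) :
    ContDiff ℝ 2 (fR R μ θ α i) := by
  have h1 : ContDiff ℝ 2 fun y : (Fin N → ℝ) × (Fin N → ℝ) => Real.exp (-(lin μ y i)) := by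
    unfold lin
    fun_prop
  have h2 : ContDiff ℝ 2 fun y : (Fin N → ℝ) × (Fin N → ℝ) => hR R (Real.exp (-(lin μ y i))) := by
    unfold hR
    exact (contDiff_const.mul h1).div (contDiff_const.add h1) fun y => by positivity
  have h3 : ContDiff ℝ 2 fun y : (Fin N → ℝ) × (Fin N → ℝ) => Real.cos (θ * (∑ j, y.1 j) + α) := by
    fun_prop
  exact h2.mul h3

lemma abs_trig (a b : ℝ) : |a * Real.cos b| ≤ |a| ∧ |a * Real.sin b| ≤ |a| := by
  constructor
  · rw [abs_mul]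
    exact mul_le_of_le_one_right (abs_nonneg _) (Real.abs_cos_le_one _)
  · rw [abs_mul]
    exact mul_le_of_le_one_right (abs_nonneg _) (Real.abs_sin_le_one _)

end

theorem t_FRT : S_FRT := by
  intro N R μ θ α i hR'
  have hb := gg_bounds hR'
  refine ⟨⟨smooth_fR hR' μ θ α i, ?_⟩, ?_⟩
  · refine ⟨R + (|μ| * R + |θ| * R) + (μ ^ 2 * R + 2 * |μ| * |θ| * R + θ ^ 2 * R) +
      (1 / 2) * μ ^ 2 * R, fun x τ => ?_⟩
    have hμ : 0 ≤ |μ| * R := by positivity
    have hθ : 0 ≤ |θ| * R := by positivity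
    have hμ2 : 0 ≤ μ ^ 2 * R := by positivity
    have hθ2 : 0 ≤ θ ^ 2 * R := by positivity
    have hμθ : 0 ≤ 2 * |μ| * |θ| * R := by positivity
    obtain ⟨b0, b1, b2⟩ := hb (lin μ (x, τ) i)
    set ξ := lin μ (x, τ) i with hξ
    set w := θ * (∑ k, x k) + α with hw
    constructor
    · rw [fR_eq]
      have := (abs_trig (gg0 R ξ) w).1
      linarith
    · intro j
      rcases eq_or_ne j i with rfl | hj
      · obtain ⟨e1, e2⟩ := dx_i hR' μ θ α j x τ
        have e3 := dt_i hR' μ θ α j x τ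
        rw [e1, e2, e3]
        refine ⟨?_, ?_, ?_⟩
        · refine (abs_sub _ _).trans ?_
          have h1 := (abs_trig (μ * gg1 R ξ) w).1
          have h2 := (abs_trig (θ * gg0 R ξ) w).2
          rw [abs_mul μ] at h1
          rw [abs_mul θ] at h2
          have h3 : |μ| * |gg1 R ξ| ≤ |μ| * R := by gcongr
          have h4 : |θ| * |gg0 R ξ| ≤ |θ| * R := by gcongr
          linarith
        · refine (abs_sub _ _).trans ?_
          have h0 := abs_sub (μ ^ 2 * gg2 R ξ * Real.cos w) (2 * μ * θ * gg1 R ξ * Real.sin w)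
          have h1 := (abs_trig (μ ^ 2 * gg2 R ξ) w).1
          have h2 := (abs_trig (2 * μ * θ * gg1 R ξ) w).2
          have h3 := (abs_trig (θ ^ 2 * gg0 R ξ) w).1
          rw [abs_mul (μ ^ 2), abs_of_nonneg (sq_nonneg μ)] at h1
          rw [abs_mul (2 * μ * θ), abs_mul (2 * μ), abs_mul 2, abs_two] at h2
          rw [abs_mul (θ ^ 2), abs_of_nonneg (sq_nonneg θ)] at h3
          have h4 : μ ^ 2 * |gg2 R ξ| ≤ μ ^ 2 * R := by gcongr
          have h5 : 2 * |μ| * |θ| * |gg1 R ξ| ≤ 2 * |μ| * |θ| * R := by gcongr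
          have h6 : θ ^ 2 * |gg0 R ξ| ≤ θ ^ 2 * R := by gcongr
          linarith
        · rw [abs_neg]
          have h1 := (abs_trig ((1 / 2) * μ ^ 2 * gg1 R ξ) w).1
          rw [abs_mul ((1 / 2) * μ ^ 2), abs_of_nonneg (by positivity : (0:ℝ) ≤ (1 / 2) * μ ^ 2)] at h1
          have h2 : (1 / 2) * μ ^ 2 * |gg1 R ξ| ≤ (1 / 2) * μ ^ 2 * R := by gcongr
          linarith
      · obtain ⟨e1, e2⟩ := dx_j hR' μ θ α hj x τ
        have e3 := dt_j (R := R) μ θ α hj x τ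
        rw [e1, e2, e3]
        refine ⟨?_, ?_, ?_⟩
        · rw [abs_neg]
          have h2 := (abs_trig (θ * gg0 R ξ) w).2
          rw [abs_mul θ] at h2
          have h4 : |θ| * |gg0 R ξ| ≤ |θ| * R := by gcongr
          linarith
        · rw [abs_neg]
          have h3 := (abs_trig (θ ^ 2 * gg0 R ξ) w).1
          rw [abs_mul (θ ^ 2), abs_of_nonneg (sq_nonneg θ)] at h3
          have h6 : θ ^ 2 * |gg0 R ξ| ≤ θ ^ 2 * R := by gcongr
          linarith
        · rw [abs_zero]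
          positivity
  · intro x τ j hit _ hhit
    rcases eq_or_ne j i with rfl | hj
    · have ht : hit := hhit.2 rfl
      unfold gen
      obtain ⟨e1, e2⟩ := dx_i hR' μ θ α j x τ
      have e3 := dt_i hR' μ θ α j x τ
      obtain ⟨e1', e2'⟩ := dx_i hR' μ 0 0 j x τ
      have e3' := dt_i hR' μ 0 0 j x τ
      rw [e1, e2, e3, e1', e2', e3', if_pos ht, fR_eq]
      have s1 := gg_sum1 hR' (lin μ (x, τ) j)
      have s2 := gg_sum2 hR' (lin μ (x, τ) j)
      set ξ := lin μ (x, τ) j with hξ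
      set w := θ * (∑ k, x k) + α with hw
      set y := Real.exp (-ξ) with hy
      have hy0 : 0 < y := Real.exp_pos _
      have hs0 : 0 < R + y := by positivity
      have hz : (0 : ℝ) * (∑ k, x k) + 0 = 0 := by ring
      rw [hz, Real.cos_zero, Real.sin_zero]
      constructor
      · have e : 1 / 2 * (μ ^ 2 * gg2 R ξ * Real.cos w - 2 * μ * θ * gg1 R ξ * Real.sin w -
            θ ^ 2 * gg0 R ξ * Real.cos w) +
            μ * (μ * gg1 R ξ * Real.cos w - θ * gg0 R ξ * Real.sin w) +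
            -(1 / 2 * μ ^ 2 * gg1 R ξ * Real.cos w) +
            1 / 2 * θ ^ 2 * (gg0 R ξ * Real.cos w) =
            1 / 2 * μ ^ 2 * (gg2 R ξ + gg1 R ξ) * Real.cos w -
            μ * θ * (gg0 R ξ + gg1 R ξ) * Real.sin w := by ring
        rw [e, s1, s2]
        refine (abs_sub _ _).trans ?_
        have h1 := (abs_trig (1 / 2 * μ ^ 2 * -(2 * R ^ 2 * y ^ 2 / (R + y) ^ 3)) w).1
        have h2 := (abs_trig (μ * θ * (R * y ^ 2 / (R + y) ^ 2)) w).2
        have h3 : |1 / 2 * μ ^ 2 * -(2 * R ^ 2 * y ^ 2 / (R + y) ^ 3)| ≤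
            μ ^ 2 * (y ^ 2 / (R + y)) := by
          have : 1 / 2 * μ ^ 2 * -(2 * R ^ 2 * y ^ 2 / (R + y) ^ 3) =
            -(μ ^ 2 * (R ^ 2 * y ^ 2 / (R + y) ^ 3)) := by ring
          rw [this, abs_neg, abs_of_nonneg (by positivity)]
          gcongr μ ^ 2 * ?_
          rw [div_le_div_iff₀ (by positivity) hs0]
          have : R ^ 2 * y ^ 2 * (R + y) ≤ y ^ 2 * (R + y) ^ 2 * (R + y) := by
            have : R ^ 2 ≤ (R + y) ^ 2 := by nlinarith
            nlinarith [mul_nonneg (mul_nonneg (sq_nonneg y) hs0.le) (sub_nonneg.2 this)]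
          calc R ^ 2 * y ^ 2 * (R + y) ≤ y ^ 2 * (R + y) ^ 2 * (R + y) := this
            _ = y ^ 2 * (R + y) ^ 3 := by ring
        have h4 : |μ * θ * (R * y ^ 2 / (R + y) ^ 2)| ≤ |μ * θ| * (y ^ 2 / (R + y)) := by
          rw [abs_mul, abs_of_nonneg (show 0 ≤ R * y ^ 2 / (R + y) ^ 2 by positivity)]
          gcongr |μ * θ| * ?_
          rw [div_le_div_iff₀ (by positivity) hs0]
          nlinarith [mul_pos (mul_pos hy0 hy0) hs0, mul_pos (mul_pos (mul_pos hy0 hy0) hy0) hs0]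
        calc _ ≤ |1 / 2 * μ ^ 2 * -(2 * R ^ 2 * y ^ 2 / (R + y) ^ 3)| +
              |μ * θ * (R * y ^ 2 / (R + y) ^ 2)| := add_le_add h1 h2
          _ ≤ μ ^ 2 * (y ^ 2 / (R + y)) + |μ * θ| * (y ^ 2 / (R + y)) := add_le_add h3 h4
          _ = _ := by ring
      · have e : 1 / 2 * (μ ^ 2 * gg2 R ξ * 1 - 2 * μ * 0 * gg1 R ξ * 0 -
            0 ^ 2 * gg0 R ξ * 1) + μ * (μ * gg1 R ξ * 1 - 0 * gg0 R ξ * 0) +
            -(1 / 2 * μ ^ 2 * gg1 R ξ * 1) = 1 / 2 * μ ^ 2 * (gg2 R ξ + gg1 R ξ) := by ring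
        rw [e, s2]
        have : 0 ≤ 1 / 2 * μ ^ 2 * (2 * R ^ 2 * y ^ 2 / (R + y) ^ 3) := by positivity
        linarith
    · have ht : ¬ hit := fun h => hj (hhit.1 h)
      unfold gen
      obtain ⟨e1, e2⟩ := dx_j hR' μ θ α hj x τ
      have e3 := dt_j (R := R) μ θ α hj x τ
      obtain ⟨e1', e2'⟩ := dx_j hR' μ 0 0 hj x τ
      have e3' := dt_j (R := R) μ 0 0 hj x τ
      rw [e2, e3, e2', e3', if_neg ht, fR_eq]
      constructor
      · have e : 1 / 2 * -(θ ^ 2 * gg0 R (lin μ (x, τ) i) * Real.cos (θ * ∑ k, x k + α)) +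
            0 * deriv (fun s => fR R μ θ α i (Function.update x j s, τ)) (x j) + 0 +
            1 / 2 * θ ^ 2 * (gg0 R (lin μ (x, τ) i) * Real.cos (θ * ∑ k, x k + α)) = 0 := by ring
        rw [e, abs_zero]
        positivity
      · have e : 1 / 2 * -((0:ℝ) ^ 2 * gg0 R (lin μ (x, τ) i) * Real.cos (0 * ∑ k, x k + 0)) +
            0 * deriv (fun s => fR R μ 0 0 i (Function.update x j s, τ)) (x j) + 0 = 0 := by ring
        rw [e]

end H60.FL
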