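import Pool.Agent.H5.FL.Stm

set_option autoImplicit false

open MeasureTheory ProbabilityTheory Filter Topology
open scoped NNReal ENNReal

universe u

namespace H60.FL

open H5.FL

lemma cost_eq (N : ℕ) (μ ε : ℝ) : ftlCost N μ ε = 2 / μ ^ 2 * VV (N : ℝ) (1 - ε) := by
  unfold ftlCost VV
  rw [sub_sub_cancel]

lemma small_delta {V A K : ℝ} (hK : 0 < K) (hA : 0 ≤ A)
    (h : ∀ δ : ℝ, 0 < δ → 1 - Real.exp (-δ * V) ≤ A * δ * Real.exp (δ * K)) : V ≤ A := by
  by_contra hc
  push Not at hc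
  have hV : 0 < V := lt_of_le_of_lt hA hc
  set D : ℝ := 2 * V * (A + K) with hD
  have hDpos : 0 < D := by positivity
  set δ : ℝ := min (1 / (2 * K)) ((V - A) / D) with hδ
  have hδ0 : 0 < δ := lt_min (by positivity) (div_pos (by linarith) hDpos)
  have h1 : δ * K ≤ 1 / 2 := by
    have : δ ≤ 1 / (2 * K) := min_le_left _ _
    calc δ * K ≤ 1 / (2 * K) * K := by gcongr
      _ = 1 / 2 := by field_simp
  have h2 : δ * D ≤ V - A := by
    have : δ ≤ (V - A) / D := min_le_right _ _
    calc δ * D ≤ (V - A) / D * D := by gcongr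
      _ = V - A := by field_simp
  have h3 : Real.exp (-δ * V) ≤ 1 / (1 + δ * V) := by
    have e1 : 1 + δ * V ≤ Real.exp (δ * V) := by
      have := Real.add_one_le_exp (δ * V); linarith
    have e2 : Real.exp (-δ * V) = 1 / Real.exp (δ * V) := by
      rw [neg_mul, Real.exp_neg, one_div]
    rw [e2]
    exact one_div_le_one_div_of_le (by positivity) e1
  have h4 : Real.exp (δ * K) ≤ 1 / (1 - δ * K) := by
    have e1 : 1 - δ * K ≤ Real.exp (-(δ * K)) := by
      have := Real.add_one_le_exp (-(δ * K)); linarith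
    have e2 : Real.exp (δ * K) = 1 / Real.exp (-(δ * K)) := by
      rw [Real.exp_neg, one_div, inv_inv]
    rw [e2]
    exact one_div_le_one_div_of_le (by linarith) e1
  have h5 := h δ hδ0
  have h6 : 1 - 1 / (1 + δ * V) ≤ A * δ * (1 / (1 - δ * K)) := by
    have : A * δ * Real.exp (δ * K) ≤ A * δ * (1 / (1 - δ * K)) := by
      gcongr
    linarith
  have hp1 : 0 < 1 + δ * V := by positivity
  have hp2 : 0 < 1 - δ * K := by linarith
  have h7 : δ * V * (1 - δ * K) ≤ A * δ * (1 + δ * V) := by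
    have e1 : 1 - 1 / (1 + δ * V) = δ * V / (1 + δ * V) := by field_simp; ring
    have e2 : A * δ * (1 / (1 - δ * K)) = A * δ / (1 - δ * K) := by ring
    rw [e1, e2, div_le_div_iff₀ hp1 hp2] at h6
    linarith
  have h8 : V * (1 - δ * K) ≤ A * (1 + δ * V) := by
    have : δ * (V * (1 - δ * K)) ≤ δ * (A * (1 + δ * V)) := by nlinarith
    exact le_of_mul_le_mul_left this hδ0
  have h9 : V - A ≤ δ * (V * (A + K)) := by nlinarith
  have h10 : δ * D = 2 * (δ * (V * (A + K))) := by rw [hD]; ring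
  have h11 : 0 < δ * (V * (A + K)) := by positivity
  linarith

/-- The integral over `[0,a]` of a function bounded below. -/
lemma integral_ge {a C : ℝ} (ha : 0 ≤ a) (hC : 0 ≤ C) (F : ℝ → ℝ)
    (h : ∀ r ∈ Set.Icc 0 a, -C ≤ F r) : -(C * a) ≤ ∫ r in (0 : ℝ)..a, F r := by
  by_cases hi : IntervalIntegrable F volume 0 a
  · have h1 := intervalIntegral.integral_mono_on ha (intervalIntegrable_const (c := -C)) hi h
    rw [intervalIntegral.integral_const, smul_eq_mul, sub_zero] at h1
    linarith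
  · rw [intervalIntegral.integral_undef hi]
    have : 0 ≤ C * a := mul_nonneg hC ha
    linarith

theorem t_LOW (hEXP : S_EXP.{u}) (hHIT : S_HIT.{u}) (hCLK : S_CLK.{u}) (hJNB : S_JNB)
    (hFCE : S_FCE) (hGBD : S_GBD) (hSMD : S_SMD) : S_LOW.{u} := by
  intro N hN ε hε hq μ hμ Ω mΩ P _ π
  set q : ℝ := 1 - ε with hqdef
  have hq1 : q < 1 := by linarith
  obtain ⟨K, hK, hGB⟩ := hGBD N hN q hq hq1
  set T : Ω → ℝ≥0∞ := stopT ε π with hT
  have hTm : Measurable T := (hEXP N hN ε hε hq μ 1 one_pos Ω P π 0).1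
  obtain ⟨-, -, -, -, -, hpost⟩ := hCLK N μ Ω P π
  by_cases hfin : ∫⁻ ω, T ω ∂P = ∞
  · rw [hfin]; exact le_top
  have hTfin : ∀ᵐ ω ∂P, T ω < ∞ := ae_lt_top hTm hfin
  -- the coordinates at time `r`
  set Y : ℝ≥0 → Ω → (Fin N → ℝ) × (Fin N → ℝ) := fun r ω => (π.X r ω, clock π.J r ω) with hY
  set E : ℝ := (∫⁻ ω, T ω ∂P).toReal with hE
  have hE0 : 0 ≤ E := ENNReal.toReal_nonneg
  have hf0 : ∀ δ y, 0 < ff N q μ δ y := fun δ y => Real.exp_pos _
  have hfK : ∀ δ, 0 < δ → ∀ y, ff N q μ δ y ≤ Real.exp (δ * K) := by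
    intro δ hδ y
    unfold ff
    apply Real.exp_le_exp.2
    have := (hGB (lin μ y)).1
    nlinarith
  -- all posteriors are at most `q` up to the stopping time
  have hle : ∀ ω (r : ℝ≥0), (r : ℝ≥0∞) ≤ T ω → ∀ i, sm (lin μ (Y r ω)) i ≤ q := by
    intro ω r hr i
    rw [hY]
    simp only
    rw [← hpost r ω]
    obtain ⟨h1, h2⟩ := hHIT N hN ε hq μ Ω P π ω
    rcases hr.lt_or_eq with h3 | h3
    · exact (h1 r h3 i).le
    · have h4 : stopT ε π ω ≠ ∞ := by
        show T ω ≠ ∞
        rw [← h3]; exact ENNReal.coe_ne_top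
      have h5 := (h2 h4).2 i
      have h6 : (stopT ε π ω).toNNReal = r := by
        show (T ω).toNNReal = r
        rw [← h3, ENNReal.toNNReal_coe]
      rw [h6] at h5
      exact h5
  have key : ∀ δ : ℝ, 0 < δ →
      1 - Real.exp (-δ * VV N q) ≤ (1 / 2 * μ ^ 2 * E) * δ * Real.exp (δ * K) := by
    intro δ hδ
    set C : ℝ := 1 / 2 * μ ^ 2 * δ * Real.exp (δ * K) with hC
    have hC0 : 0 ≤ C := by positivity
    have hlam : ∀ ω (r : ℝ≥0), (r : ℝ≥0∞) ≤ T ω → ∀ j, -C ≤ lam N q μ δ (Y r ω) j := by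
      intro ω r hr j
      have h1 : BB N q (lin μ (Y r ω)) j ≤ 1 := hJNB N hN q hq1 _ (hle ω r hr) j
      unfold lam
      have h2 : -δ ≤ δ ^ 2 * G1 N q (lin μ (Y r ω)) j ^ 2 - δ * BB N q (lin μ (Y r ω)) j := by
        have : 0 ≤ δ ^ 2 * G1 N q (lin μ (Y r ω)) j ^ 2 := by positivity
        nlinarith
      have h3 := hfK δ hδ (Y r ω)
      have h4 := hf0 δ (Y r ω)
      have h5 : 0 < 1 / 2 * μ ^ 2 * ff N q μ δ (Y r ω) := by positivity
      have h6 : (1 / 2 * μ ^ 2 * ff N q μ δ (Y r ω)) * (-δ) ≤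
          (1 / 2 * μ ^ 2 * ff N q μ δ (Y r ω)) *
          (δ ^ 2 * G1 N q (lin μ (Y r ω)) j ^ 2 - δ * BB N q (lin μ (Y r ω)) j) :=
        mul_le_mul_of_nonneg_left h2 h5.le
      have h7 : (1 / 2 * μ ^ 2 * ff N q μ δ (Y r ω)) * δ ≤ C := by
        rw [hC]
        have : 1 / 2 * μ ^ 2 * δ * ff N q μ δ (Y r ω) ≤ 1 / 2 * μ ^ 2 * δ * Real.exp (δ * K) := by
          gcongr
        linarith
      linarith
    have hstep : ∀ t : ℝ≥0, -(C * E) ≤
        ∫ ω, ff N q μ δ (Y (min (T ω) t).toNNReal ω) ∂P - 1 := by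
      intro t
      have h1 := (hEXP N hN ε hε hq μ δ hδ Ω P π t).2.2
      have h1' : ∫ ω, ff N q μ δ (Y (min (T ω) t).toNNReal ω) ∂P - 1
        = ∫ ω, (∫ r in (0 : ℝ)..((min (T ω) t).toNNReal : ℝ),
          lam N q μ δ (Y r.toNNReal ω) (π.J r.toNNReal ω)) ∂P := h1
      rw [h1']
      have hin : ∀ ω, -(C * ((min (T ω) t).toNNReal : ℝ)) ≤
          ∫ r in (0 : ℝ)..((min (T ω) t).toNNReal : ℝ),
            lam N q μ δ (Y r.toNNReal ω) (π.J r.toNNReal ω) := by
        intro ω
        refine integral_ge (NNReal.coe_nonneg _) hC0 _ fun r hr => ?_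
        apply hlam ω r.toNNReal
        have h2 : r.toNNReal ≤ (min (T ω) t).toNNReal := by
          rw [Real.toNNReal_le_iff_le_coe]; exact hr.2
        have h3 : ((min (T ω) t).toNNReal : ℝ≥0∞) = min (T ω) t :=
          ENNReal.coe_toNNReal (ne_top_of_le_ne_top ENNReal.coe_ne_top (min_le_right _ _))
        calc (r.toNNReal : ℝ≥0∞) ≤ ((min (T ω) t).toNNReal : ℝ≥0∞) := by exact_mod_cast h2
          _ = min (T ω) t := h3
          _ ≤ T ω := min_le_left _ _
      have hmin : Measurable fun ω => min (T ω) (t : ℝ≥0∞) := hTm.min measurable_const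
      have hint : ∫ ω, ((min (T ω) t).toNNReal : ℝ) ∂P ≤ E := by
        have h2 : ∫ ω, (min (T ω) (t : ℝ≥0∞)).toReal ∂P = (∫⁻ ω, min (T ω) t ∂P).toReal :=
          integral_toReal hmin.aemeasurable
            (Eventually.of_forall fun ω => lt_of_le_of_lt (min_le_right _ _) ENNReal.coe_lt_top)
        have h3 : ∫ ω, ((min (T ω) t).toNNReal : ℝ) ∂P = ∫ ω, (min (T ω) (t : ℝ≥0∞)).toReal ∂P :=
          rfl
        rw [h3, h2]
        exact ENNReal.toReal_mono hfin (lintegral_mono fun ω => min_le_left _ _)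
      have hintb : Integrable (fun ω => ((min (T ω) t).toNNReal : ℝ)) P := by
        refine Integrable.of_bound (C := (t : ℝ)) ?_ (Eventually.of_forall fun ω => ?_)
        · exact (measurable_coe_nnreal_real.comp hmin.ennreal_toNNReal).aestronglyMeasurable
        · rw [Real.norm_of_nonneg (NNReal.coe_nonneg _)]
          have : (min (T ω) t).toNNReal ≤ t := by
            have := ENNReal.toNNReal_mono (ENNReal.coe_ne_top (r := t)) (min_le_right (T ω) t)
            rwa [ENNReal.toNNReal_coe] at this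
          exact_mod_cast this
      by_cases hi : Integrable (fun ω => ∫ r in (0 : ℝ)..((min (T ω) t).toNNReal : ℝ),
            lam N q μ δ (Y r.toNNReal ω) (π.J r.toNNReal ω)) P
      · have h2 : ∫ ω, -(C * ((min (T ω) t).toNNReal : ℝ)) ∂P ≤
            ∫ ω, (∫ r in (0 : ℝ)..((min (T ω) t).toNNReal : ℝ),
              lam N q μ δ (Y r.toNNReal ω) (π.J r.toNNReal ω)) ∂P :=
          integral_mono (hintb.const_mul C).neg hi hin
        rw [integral_neg, integral_const_mul] at h2
        have h3 : C * ∫ ω, ((min (T ω) t).toNNReal : ℝ) ∂P ≤ C * E := by gcongr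
        linarith
      · rw [integral_undef hi]
        have : 0 ≤ C * E := mul_nonneg hC0 hE0
        linarith
    -- the limit
    have hlim : Tendsto (fun n : ℕ => ∫ ω, ff N q μ δ (Y (min (T ω) (n : ℝ≥0)).toNNReal ω) ∂P)
        atTop (𝓝 (∫ ω, ff N q μ δ (Y (T ω).toNNReal ω) ∂P)) := by
      apply tendsto_integral_of_dominated_convergence (fun _ => Real.exp (δ * K))
      · intro n
        exact (hEXP N hN ε hε hq μ δ hδ Ω P π (n : ℝ≥0)).2.1.aestronglyMeasurable
      · exact integrable_const _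
      · intro n
        refine Eventually.of_forall fun ω => ?_
        rw [Real.norm_of_nonneg (hf0 _ _).le]
        exact hfK δ hδ _
      · filter_upwards [hTfin] with ω hω
        apply tendsto_const_nhds.congr'
        obtain ⟨n₀, hn₀⟩ := exists_nat_ge (T ω).toNNReal
        filter_upwards [eventually_ge_atTop n₀] with n hn
        have : T ω ≤ ((n : ℝ≥0) : ℝ≥0∞) := by
          rw [← ENNReal.coe_toNNReal hω.ne]
          exact_mod_cast hn₀.trans (by exact_mod_cast hn)
        rw [min_eq_left this]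
    have hup : ∫ ω, ff N q μ δ (Y (T ω).toNNReal ω) ∂P ≤ Real.exp (-δ * VV N q) := by
      have h1 : ∫ ω, ff N q μ δ (Y (T ω).toNNReal ω) ∂P ≤
          ∫ _ : Ω, Real.exp (-δ * VV N q) ∂P := by
        apply integral_mono_of_nonneg (Eventually.of_forall fun ω => (hf0 _ _).le)
          (integrable_const _)
        filter_upwards [hTfin] with ω hω
        unfold ff
        apply Real.exp_le_exp.2
        have h2 : VV N q ≤ GG N q (lin μ (Y (T ω).toNNReal ω)) := by
          obtain ⟨-, h3⟩ := hHIT N hN ε hq μ Ω P π ω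
          obtain ⟨h4, h5⟩ := h3 hω.ne
          have hs := (hSMD N hN).1 (lin μ (Y (T ω).toNNReal ω))
          apply hFCE N hN q hq hq1 (fun i => sm (lin μ (Y (T ω).toNNReal ω)) i)
            (fun i => (hs.1 i).1) hs.2
          · intro i
            have := h5 i
            rw [hpost] at this
            exact this
          · obtain ⟨j, hj⟩ := h4
            refine ⟨j, ?_⟩
            rw [hpost] at hj
            exact hj
        have : -δ * GG N q (lin μ (Y (T ω).toNNReal ω)) ≤ -δ * VV N q := by nlinarith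
        exact this
      simpa using h1
    have h1 := ge_of_tendsto' (hlim.sub_const 1) fun n => hstep (n : ℝ≥0)
    have h2 : C * E = (1 / 2 * μ ^ 2 * E) * δ * Real.exp (δ * K) := by rw [hC]; ring
    linarith
  have hVE := small_delta hK (by positivity) key
  rw [cost_eq]
  rw [ENNReal.ofReal_le_iff_le_toReal hfin]
  have hμ2 : 0 < μ ^ 2 := by positivity
  calc 2 / μ ^ 2 * VV N (1 - ε) ≤ 2 / μ ^ 2 * (1 / 2 * μ ^ 2 * E) := by
        gcongr
    _ = E := by field_simp

end H60.FL
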