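import Pool.Agent.H60.FL.LOW

set_option autoImplicit false

open MeasureTheory ProbabilityTheory Filter Topology
open scoped NNReal ENNReal

universe u

namespace H60.FL

open H5.FL

lemma cont_lin {N : ℕ} (μ : ℝ) : Continuous (lin (N := N) μ) := by
  unfold lin
  fun_prop

lemma cont_sm (hSMD : S_SMD) {N : ℕ} (hN : 2 ≤ N) (i : Fin N) :
    Continuous fun ξ : Fin N → ℝ => sm ξ i := ((hSMD N hN).2.1 i).continuous

lemma cont_phi1 (hSMD : S_SMD) (hPHD : S_PHD) {N : ℕ} (hN : 2 ≤ N) {q : ℝ} (hq : q < 1)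
    (i : Fin N) : Continuous fun ξ : Fin N → ℝ => phi1 (N : ℝ) q (sm ξ i) := by
  rw [continuous_iff_continuousAt]
  intro ξ
  have h1 := ((hSMD N hN).1 ξ).1 i
  have h2 : (2 : ℝ) ≤ N := by exact_mod_cast hN
  have h3 := ((hPHD N q h2 hq (sm ξ i) h1.1).2).continuousAt
  exact ContinuousAt.comp (f := fun ξ : Fin N → ℝ => sm ξ i) h3 (cont_sm hSMD hN i).continuousAt

lemma cont_G1 (hSMD : S_SMD) (hPHD : S_PHD) {N : ℕ} (hN : 2 ≤ N) {q : ℝ} (hq : q < 1)
    (j : Fin N) : Continuous fun ξ : Fin N → ℝ => G1 N q ξ j := by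
  unfold G1
  have h1 := cont_phi1 hSMD hPHD hN hq
  have h2 := cont_sm hSMD hN
  exact (h2 j).mul ((h1 j).sub (continuous_finsetSum _ fun i _ => (h2 i).mul (h1 i)))

lemma cont_BB (hSMD : S_SMD) (hPTC : S_PTC) {N : ℕ} (hN : 2 ≤ N) {q : ℝ} (hq : q < 1)
    (j : Fin N) : Continuous fun ξ : Fin N → ℝ => BB N q ξ j := by
  unfold BB
  have h0 : (2 : ℝ) ≤ N := by exact_mod_cast hN
  have h1 : ∀ i, Continuous fun ξ : Fin N → ℝ => psiT (N : ℝ) q (sm ξ i) := fun i =>
    (hPTC N q h0 hq).1.comp (cont_sm hSMD hN i)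
  have h2 := cont_sm hSMD hN
  exact (((continuous_const.sub (h2 j)).pow 2).mul (h1 j)).add
    (((h2 j).pow 2).mul (continuous_finsetSum _ fun i _ => h1 i))

lemma cont_ff (hGC2 : S_GC2) {N : ℕ} (hN : 2 ≤ N) {q : ℝ} (hq : q < 1) (μ δ : ℝ) :
    Continuous (ff N q μ δ) := by
  unfold ff
  have h1 : Continuous (GG N q) := (hGC2 N hN q hq).continuous
  have h2 := h1.comp (cont_lin (N := N) μ)
  exact Real.continuous_exp.comp (continuous_const.mul h2)

lemma cont_lam (hSMD : S_SMD) (hPHD : S_PHD) (hPTC : S_PTC) (hGC2 : S_GC2) {N : ℕ} (hN : 2 ≤ N)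
    {q : ℝ} (hq : q < 1) (μ δ : ℝ) (j : Fin N) : Continuous fun y => lam N q μ δ y j := by
  unfold lam
  have h1 := (cont_G1 hSMD hPHD hN hq j).comp (cont_lin (N := N) μ)
  have h2 := (cont_BB hSMD hPTC hN hq j).comp (cont_lin (N := N) μ)
  have h3 := cont_ff hGC2 hN hq μ δ
  exact ((continuous_const.mul h3)).mul ((continuous_const.mul (h1.pow 2)).sub
    (continuous_const.mul h2))

lemma gen_meas {α : Type} [MeasurableSpace α] {N : ℕ} (g : α → Fin N → ℝ)
    (hg : ∀ j, Measurable fun y => g y j) {Ω : Type u} [MeasurableSpace Ω] (Y : ℝ≥0 → Ω → α)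
    (J : ℝ≥0 → Ω → Fin N) (hY : Measurable fun p : ℝ≥0 × Ω => Y p.1 p.2)
    (hJ : Measurable fun p : ℝ≥0 × Ω => J p.1 p.2) :
    Measurable fun p : Ω × ℝ => g (Y p.2.toNNReal p.1) (J p.2.toNNReal p.1) := by
  have h1 : Measurable (fun p : α × Fin N => g p.1 p.2) := measurable_from_prod_countable_left hg
  have h2 : Measurable (fun p : Ω × ℝ => (p.2.toNNReal, p.1)) :=
    (measurable_real_toNNReal.comp measurable_snd).prodMk measurable_fst
  have h3 : Measurable (fun p : Ω × ℝ => Y p.2.toNNReal p.1) := hY.comp h2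
  have h4 : Measurable (fun p : Ω × ℝ => J p.2.toNNReal p.1) := hJ.comp h2
  exact h1.comp (h3.prodMk h4)

theorem t_UPP (hEXP : S_EXP.{u}) (hHIT : S_HIT.{u}) (hCLK : S_CLK.{u}) (hBEQ : S_BEQ)
    (hGBD : S_GBD) (hSMD : S_SMD) (hGC2 : S_GC2) (hPHD : S_PHD) (hPTC : S_PTC) :
    S_UPP.{u} := by
  intro N hN ε hε hq μ hμ Ω mΩ P _ π hLF
  set q : ℝ := 1 - ε with hqdef
  have hq1 : q < 1 := by linarith
  have hN0 : (0 : ℝ) < N := by
    have : 0 < N := by omega
    exact_mod_cast this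
  obtain ⟨K, hK, hGB⟩ := hGBD N hN q hq hq1
  set T : Ω → ℝ≥0∞ := stopT ε π with hT
  have hTm : Measurable T := (hEXP N hN ε hε hq μ 1 one_pos Ω P π 0).1
  obtain ⟨hcm, hcc, hc0, hJm, -, hpost⟩ := hCLK N μ Ω P π
  set Y : ℝ≥0 → Ω → (Fin N → ℝ) × (Fin N → ℝ) := fun r ω => (π.X r ω, clock π.J r ω) with hY
  have hYc : ∀ ω, Continuous fun r => Y r ω := fun ω => (π.X_cont ω).prodMk (hcc ω)
  have hYm : ∀ r, Measurable (Y r) := fun r =>
    ((π.X_adapted r).mono (π.obs.le r) le_rfl).prodMk ((hcm r).mono (π.obs.le r) le_rfl)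
  have hYu : Measurable (Function.uncurry Y) :=
    measurable_uncurry_of_continuous_of_measurable hYc hYm
  have hGGc : Continuous (GG N q) := (hGC2 N hN q hq1).continuous
  set V : ℝ := VV N q with hV
  have hf0 : ∀ δ y, 0 < ff N q μ δ y := fun δ y => Real.exp_pos _
  have hfK : ∀ δ, 0 < δ → ∀ y, ff N q μ δ y ≤ Real.exp (δ * K) := by
    intro δ hδ y
    unfold ff
    apply Real.exp_le_exp.2
    have := (hGB (lin μ y)).1
    nlinarith
  -- the policy before the stopping time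
  have hgood : ∀ᵐ ω ∂P, ∀ r : ℝ≥0, (r : ℝ≥0∞) < T ω →
      BB N q (lin μ (Y r ω)) (π.J r ω) = 1 ∧ 0 ≤ GG N q (lin μ (Y r ω)) ∧
        GG N q (lin μ (Y r ω)) ≤ V := by
    filter_upwards [hLF] with ω hω r hr
    obtain ⟨h1, h2⟩ := hω r hr
    have h3 := (hHIT N hN ε hq μ Ω P π ω).1 r hr (π.J r ω)
    rw [hpost] at h3
    apply hBEQ N hN q hq hq1 (lin μ (Y r ω)) (π.J r ω) h3.le
    · intro i
      have := h1 i
      rw [hpost] at this
      exact this
    · intro i hi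
      have := h2 i hi
      rw [hpost] at this
      exact this
  have hzero : ∀ ω, 0 ≤ GG N q (lin μ (Y 0 ω)) ∧ GG N q (lin μ (Y 0 ω)) ≤ V := by
    intro ω
    have h0 : lin μ (Y 0 ω) = fun _ => 0 := by
      funext j
      unfold lin
      rw [hY]
      simp only
      rw [π.X_zero, hc0]
      simp
    have h1 : ∀ i : Fin N, sm (fun _ : Fin N => (0 : ℝ)) i = 1 / N := by
      intro i
      unfold sm
      simp
    have hj : Nonempty (Fin N) := ⟨⟨0, by omega⟩⟩
    obtain ⟨j⟩ := hj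
    have hN1 : (N : ℝ) - 1 ≠ 0 := by
      have : (2 : ℝ) ≤ N := by exact_mod_cast hN
      linarith
    rw [h0]
    exact (hBEQ N hN q hq hq1 (fun _ => 0) j (by rw [h1]; exact hq) (fun i => by rw [h1, h1])
      (fun i _ => by rw [h1, h1]; field_simp)).2
  -- up to the stopping time
  have hclosed : ∀ᵐ ω ∂P, ∀ r : ℝ≥0, (r : ℝ≥0∞) ≤ T ω → GG N q (lin μ (Y r ω)) ≤ V := by
    filter_upwards [hgood] with ω hω r hr
    rcases hr.lt_or_eq with h1 | h1
    · exact (hω r h1).2.2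
    · rcases eq_or_ne r 0 with rfl | hr0
      · exact (hzero ω).2
      · have hcl : IsClosed {s : ℝ≥0 | GG N q (lin μ (Y s ω)) ≤ V} :=
          isClosed_le ((hGGc.comp (cont_lin μ)).comp (hYc ω)) continuous_const
        have hsub : Set.Iio r ⊆ {s : ℝ≥0 | GG N q (lin μ (Y s ω)) ≤ V} := by
          intro s hs
          refine (hω s ?_).2.2
          rw [← h1]
          exact_mod_cast hs
        have h2 := closure_minimal hsub hcl
        rw [closure_Iio' ⟨0, pos_iff_ne_zero.2 hr0⟩] at h2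
        exact h2 (Set.mem_Iic.2 le_rfl)
  -- the main estimate
  have key : ∀ δ : ℝ, 0 < δ → δ * K ^ 2 < 1 → ∀ t : ℝ≥0,
      (1 / 2 * μ ^ 2 * δ * (1 - δ * K ^ 2) * Real.exp (-(δ * V))) *
        ∫ ω, (min (T ω) (t : ℝ≥0∞)).toReal ∂P ≤ 1 - Real.exp (-(δ * V)) := by
    intro δ hδ hδK t
    set c : ℝ := 1 / 2 * μ ^ 2 * δ * (1 - δ * K ^ 2) * Real.exp (-(δ * V)) with hc
    have hc0 : 0 < c := by
      have : 0 < 1 - δ * K ^ 2 := by linarith
      positivity
    have hfV : ∀ y, GG N q (lin μ y) ≤ V → Real.exp (-(δ * V)) ≤ ff N q μ δ y := by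
      intro y hy
      unfold ff
      apply Real.exp_le_exp.2
      nlinarith
    have hlam : ∀ᵐ ω ∂P, ∀ r : ℝ≥0, (r : ℝ≥0∞) < T ω → lam N q μ δ (Y r ω) (π.J r ω) ≤ -c := by
      filter_upwards [hgood] with ω hω r hr
      obtain ⟨h1, h2, h3⟩ := hω r hr
      unfold lam
      rw [h1]
      have h4 := hfV _ h3
      have h5 : δ ^ 2 * G1 N q (lin μ (Y r ω)) (π.J r ω) ^ 2 - δ * 1 ≤ -(δ * (1 - δ * K ^ 2)) := by
        have h6 := ((hGB (lin μ (Y r ω))).2 (π.J r ω)).1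
        have h7 : G1 N q (lin μ (Y r ω)) (π.J r ω) ^ 2 ≤ K ^ 2 := sq_le_sq' (abs_le.1 h6).1 (abs_le.1 h6).2
        nlinarith [mul_le_mul_of_nonneg_left h7 (sq_nonneg δ)]
      have h8 : 0 < δ * (1 - δ * K ^ 2) := mul_pos hδ (by linarith)
      have h9 : 0 < 1 / 2 * μ ^ 2 * ff N q μ δ (Y r ω) := by
        have := hf0 δ (Y r ω)
        positivity
      calc 1 / 2 * μ ^ 2 * ff N q μ δ (Y r ω) *
            (δ ^ 2 * G1 N q (lin μ (Y r ω)) (π.J r ω) ^ 2 - δ * 1)
          ≤ 1 / 2 * μ ^ 2 * ff N q μ δ (Y r ω) * (-(δ * (1 - δ * K ^ 2))) :=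
            mul_le_mul_of_nonneg_left h5 h9.le
        _ = -(1 / 2 * μ ^ 2 * (δ * (1 - δ * K ^ 2)) * ff N q μ δ (Y r ω)) := by ring
        _ ≤ -(1 / 2 * μ ^ 2 * (δ * (1 - δ * K ^ 2)) * Real.exp (-(δ * V))) := by
            apply neg_le_neg
            have : 0 ≤ 1 / 2 * μ ^ 2 * (δ * (1 - δ * K ^ 2)) := by positivity
            exact mul_le_mul_of_nonneg_left h4 this
        _ = -c := by rw [hc]; ring
    -- bound and measurability of the drift
    set L : ℝ → Ω → ℝ := fun r ω => lam N q μ δ (Y r.toNNReal ω) (π.J r.toNNReal ω) with hL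
    obtain ⟨L₀, hL₀⟩ : ∃ L₀ : ℝ, ∀ r ω, |L r ω| ≤ L₀ := by
      refine ⟨1 / 2 * μ ^ 2 * Real.exp (δ * K) * (δ ^ 2 * K ^ 2 + δ * K), fun r ω => ?_⟩
      rw [hL]
      simp only
      unfold lam
      rw [abs_mul, abs_mul]
      have e1 : |1 / 2 * μ ^ 2| = 1 / 2 * μ ^ 2 := abs_of_nonneg (by positivity)
      have e2 : |ff N q μ δ (Y r.toNNReal ω)| ≤ Real.exp (δ * K) := by
        rw [abs_of_pos (hf0 _ _)]
        exact hfK δ hδ _
      have e3 : |δ ^ 2 * G1 N q (lin μ (Y r.toNNReal ω)) (π.J r.toNNReal ω) ^ 2 -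
          δ * BB N q (lin μ (Y r.toNNReal ω)) (π.J r.toNNReal ω)| ≤ δ ^ 2 * K ^ 2 + δ * K := by
        obtain ⟨h1, h2⟩ := (hGB (lin μ (Y r.toNNReal ω))).2 (π.J r.toNNReal ω)
        refine (abs_sub _ _).trans (add_le_add ?_ ?_)
        · rw [abs_mul, abs_of_nonneg (sq_nonneg δ), abs_pow]
          gcongr
        · rw [abs_mul, abs_of_pos hδ]
          gcongr
      rw [e1]
      gcongr
    have hLm : Measurable (fun p : Ω × ℝ => L p.2 p.1) :=
      gen_meas (fun y j => lam N q μ δ y j)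
        (fun j => (cont_lam hSMD hPHD hPTC hGC2 hN hq1 μ δ j).measurable) Y π.J hYu hJm
    have hLdef : ∀ r ω, L r ω = lam N q μ δ (Y r.toNNReal ω) (π.J r.toNNReal ω) :=
      fun _ _ => rfl
    have hexp : ∫ ω, ff N q μ δ (Y (min (T ω) (t : ℝ≥0∞)).toNNReal ω) ∂P - 1
        = ∫ ω, (∫ r in (0 : ℝ)..((min (T ω) (t : ℝ≥0∞)).toNNReal : ℝ), L r ω) ∂P :=
      (hEXP N hN ε hε hq μ δ hδ Ω P π t).2.2
    clear_value L
    set a : Ω → ℝ≥0 := fun ω => (min (T ω) (t : ℝ≥0∞)).toNNReal with ha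
    have hmin : Measurable fun ω => min (T ω) (t : ℝ≥0∞) := hTm.min measurable_const
    have ham : Measurable a := hmin.ennreal_toNNReal
    have hat : ∀ ω, a ω ≤ t := fun ω => by
      have := ENNReal.toNNReal_mono (ENNReal.coe_ne_top (r := t)) (min_le_right (T ω) t)
      rwa [ENNReal.toNNReal_coe] at this
    have haT : ∀ ω, (a ω : ℝ≥0∞) ≤ T ω := fun ω => by
      rw [ha]
      simp only
      rw [ENNReal.coe_toNNReal (ne_top_of_le_ne_top ENNReal.coe_ne_top (min_le_right _ _))]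
      exact min_le_left _ _
    have hII : ∀ ω, IntervalIntegrable (fun r => L r ω) volume 0 (a ω) := by
      intro ω
      rw [intervalIntegrable_iff_integrableOn_Ioc_of_le (NNReal.coe_nonneg _)]
      refine Measure.integrableOn_of_bounded (M := L₀) (by simp) ?_ ?_
      · exact (hLm.comp (measurable_prodMk_left (x := ω))).aestronglyMeasurable
      · exact Eventually.of_forall fun r => hL₀ r ω
    have hPhi_le : ∀ᵐ ω ∂P, ∫ r in (0 : ℝ)..(a ω : ℝ), L r ω ≤ -c * (a ω : ℝ) := by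
      filter_upwards [hlam] with ω hω
      have h1 := intervalIntegral.integral_mono_on_of_le_Ioo (NNReal.coe_nonneg (a ω)) (hII ω)
        (intervalIntegrable_const (c := -c)) (fun r hr => by
          rw [hLdef]
          apply hω r.toNNReal
          have h2 : r.toNNReal < a ω := by
            rw [Real.toNNReal_lt_iff_lt_coe hr.1.le]
            exact hr.2
          exact lt_of_lt_of_le (by exact_mod_cast h2) (haT ω))
      rw [intervalIntegral.integral_const, smul_eq_mul, sub_zero] at h1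
      linarith
    have hPhi_eq : (fun ω => ∫ r in (0 : ℝ)..(a ω : ℝ), L r ω) = fun ω => ∫ r : ℝ,
        (Set.indicator {p : Ω × ℝ | 0 < p.2 ∧ p.2 ≤ a p.1} (fun p => L p.2 p.1)) (ω, r) := by
      funext ω
      rw [intervalIntegral.integral_of_le (NNReal.coe_nonneg _),
        ← integral_indicator measurableSet_Ioc]
      congr 1
    have hset : MeasurableSet {p : Ω × ℝ | 0 < p.2 ∧ p.2 ≤ a p.1} := by
      apply MeasurableSet.inter
      · exact measurableSet_lt measurable_const measurable_snd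
      · exact measurableSet_le measurable_snd
          (measurable_coe_nnreal_real.comp (ham.comp measurable_fst))
    have hPhi_m : StronglyMeasurable fun ω => ∫ r in (0 : ℝ)..(a ω : ℝ), L r ω := by
      rw [hPhi_eq]
      exact (hLm.indicator hset).stronglyMeasurable.integral_prod_right'
    have hPhi_i : Integrable (fun ω => ∫ r in (0 : ℝ)..(a ω : ℝ), L r ω) P := by
      refine Integrable.of_bound (C := L₀ * t) hPhi_m.aestronglyMeasurable
        (Eventually.of_forall fun ω => ?_)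
      have h1 := intervalIntegral.norm_integral_le_of_norm_le_const (a := 0) (b := (a ω : ℝ))
        (f := fun r => L r ω) (C := L₀) (fun r _ => hL₀ r ω)
      rw [sub_zero, abs_of_nonneg (NNReal.coe_nonneg _)] at h1
      refine h1.trans ?_
      have h2 : 0 ≤ L₀ := (abs_nonneg _).trans (hL₀ 0 ω)
      have h3 : (a ω : ℝ) ≤ t := by exact_mod_cast hat ω
      exact mul_le_mul_of_nonneg_left h3 h2
    have hai : Integrable (fun ω => (a ω : ℝ)) P := by
      refine Integrable.of_bound (C := (t : ℝ)) ?_ (Eventually.of_forall fun ω => ?_)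
      · exact (measurable_coe_nnreal_real.comp ham).aestronglyMeasurable
      · rw [Real.norm_of_nonneg (NNReal.coe_nonneg _)]
        exact_mod_cast hat ω
    have h1 : ∫ ω, ff N q μ δ (Y (a ω) ω) ∂P - 1
        = ∫ ω, (∫ r in (0 : ℝ)..(a ω : ℝ), L r ω) ∂P := hexp
    have h2 : ∫ ω, (∫ r in (0 : ℝ)..(a ω : ℝ), L r ω) ∂P ≤ ∫ ω, -c * (a ω : ℝ) ∂P :=
      integral_mono_ae hPhi_i (hai.const_mul (-c)) hPhi_le
    rw [integral_const_mul] at h2
    have hffm : Measurable (fun ω => ff N q μ δ (Y (a ω) ω)) :=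
      (hEXP N hN ε hε hq μ δ hδ Ω P π t).2.1
    have hffi : Integrable (fun ω => ff N q μ δ (Y (a ω) ω)) P := by
      refine Integrable.of_bound (C := Real.exp (δ * K)) hffm.aestronglyMeasurable
        (Eventually.of_forall fun ω => ?_)
      rw [Real.norm_of_nonneg (hf0 _ _).le]
      exact hfK δ hδ _
    have h3 : Real.exp (-(δ * V)) ≤ ∫ ω, ff N q μ δ (Y (a ω) ω) ∂P := by
      have h4 : ∫ _ : Ω, Real.exp (-(δ * V)) ∂P ≤ ∫ ω, ff N q μ δ (Y (a ω) ω) ∂P := by
        apply integral_mono_ae (integrable_const _) hffi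
        filter_upwards [hclosed] with ω hω
        exact hfV _ (hω _ (haT ω))
      simpa using h4
    have h5 : ∫ ω, (min (T ω) (t : ℝ≥0∞)).toReal ∂P = ∫ ω, (a ω : ℝ) ∂P := rfl
    rw [h5]
    linarith
  -- V ≥ 0
  have hV0 : 0 ≤ V := by
    have hne : Nonempty Ω := nonempty_of_isProbabilityMeasure P
    obtain ⟨ω⟩ := hne
    exact (hzero ω).1.trans (hzero ω).2
  -- passage to the limit `t → ∞`
  have hbound : ∀ δ : ℝ, 0 < δ → δ * K ^ 2 < 1 →
      ∫⁻ ω, T ω ∂P ≤ ENNReal.ofReal (2 / μ ^ 2 * V / ((1 - δ * K ^ 2) * Real.exp (-(δ * V)))) := by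
    intro δ hδ hδK
    have h1 : ∀ n : ℕ, ∫⁻ ω, min (T ω) (n : ℝ≥0∞) ∂P ≤
        ENNReal.ofReal (2 / μ ^ 2 * V / ((1 - δ * K ^ 2) * Real.exp (-(δ * V)))) := by
      intro n
      have hmin : Measurable fun ω => min (T ω) (n : ℝ≥0∞) := hTm.min measurable_const
      have hlt : ∀ ω, min (T ω) (n : ℝ≥0∞) < ∞ := fun ω =>
        lt_of_le_of_lt (min_le_right _ _) (ENNReal.natCast_lt_top n)
      have h2 : ∫ ω, (min (T ω) (n : ℝ≥0∞)).toReal ∂P = (∫⁻ ω, min (T ω) n ∂P).toReal :=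
        integral_toReal hmin.aemeasurable (Eventually.of_forall hlt)
      have h3 := key δ hδ hδK (n : ℝ≥0)
      have h4 : ((n : ℝ≥0) : ℝ≥0∞) = (n : ℝ≥0∞) := by simp
      rw [h4, h2] at h3
      have hfin : ∫⁻ ω, min (T ω) n ∂P ≠ ∞ := by
        refine ne_top_of_le_ne_top ?_ (lintegral_mono fun ω => min_le_right (T ω) (n : ℝ≥0∞))
        simp
      rw [← ENNReal.ofReal_toReal hfin]
      apply ENNReal.ofReal_le_ofReal
      have h5 : 1 - Real.exp (-(δ * V)) ≤ δ * V := by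
        have := Real.add_one_le_exp (-(δ * V))
        linarith
      have h6 : 0 < 1 - δ * K ^ 2 := by linarith
      have h7 : 0 < (1 - δ * K ^ 2) * Real.exp (-(δ * V)) := by positivity
      rw [le_div_iff₀ h7]
      have h8 : (1 / 2 * μ ^ 2 * δ) * ((∫⁻ ω, min (T ω) n ∂P).toReal *
          ((1 - δ * K ^ 2) * Real.exp (-(δ * V)))) ≤ (1 / 2 * μ ^ 2 * δ) * (2 / μ ^ 2 * V) := by
        have e1 : (1 / 2 * μ ^ 2 * δ) * (2 / μ ^ 2 * V) = δ * V := by field_simp
        rw [e1]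
        calc (1 / 2 * μ ^ 2 * δ) * ((∫⁻ ω, min (T ω) n ∂P).toReal *
          ((1 - δ * K ^ 2) * Real.exp (-(δ * V)))) = 1 / 2 * μ ^ 2 * δ * (1 - δ * K ^ 2) *
            Real.exp (-(δ * V)) * (∫⁻ ω, min (T ω) n ∂P).toReal := by ring
          _ ≤ 1 - Real.exp (-(δ * V)) := h3
          _ ≤ δ * V := h5
      exact le_of_mul_le_mul_left h8 (by positivity)
    have h2 : ∫⁻ ω, T ω ∂P = ⨆ n : ℕ, ∫⁻ ω, min (T ω) (n : ℝ≥0∞) ∂P := by
      rw [← lintegral_iSup (fun n => hTm.min measurable_const) (fun n m hnm ω => by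
        exact min_le_min le_rfl (by exact_mod_cast hnm))]
      congr 1
      funext ω
      rw [← inf_iSup_eq, ENNReal.iSup_natCast, inf_top_eq]
    rw [h2]
    exact iSup_le h1
  -- passage to the limit `δ → 0`
  have hlim : Tendsto (fun δ : ℝ => ENNReal.ofReal
      (2 / μ ^ 2 * V / ((1 - δ * K ^ 2) * Real.exp (-(δ * V))))) (𝓝[>] 0)
      (𝓝 (ENNReal.ofReal (2 / μ ^ 2 * V))) := by
    have h1 : ContinuousAt (fun δ : ℝ => 2 / μ ^ 2 * V / ((1 - δ * K ^ 2) * Real.exp (-(δ * V))))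
        0 := by
      apply ContinuousAt.div
      · fun_prop
      · fun_prop
      · simp
    have h2 : Tendsto (fun δ : ℝ => 2 / μ ^ 2 * V / ((1 - δ * K ^ 2) * Real.exp (-(δ * V))))
        (𝓝[>] 0) (𝓝 (2 / μ ^ 2 * V)) := by
      have h3 := h1.tendsto
      simp only [zero_mul, sub_zero, neg_zero, Real.exp_zero, mul_one, div_one] at h3
      exact h3.mono_left nhdsWithin_le_nhds
    exact ENNReal.tendsto_ofReal h2
  rw [cost_eq]
  apply ge_of_tendsto hlim
  have h3 : ∀ᶠ δ in 𝓝[>] (0 : ℝ), δ * K ^ 2 < 1 := by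
    have : Tendsto (fun δ : ℝ => δ * K ^ 2) (𝓝[>] 0) (𝓝 (0 * K ^ 2)) :=
      ((continuous_id.mul continuous_const).tendsto 0).mono_left nhdsWithin_le_nhds
    rw [zero_mul] at this
    exact this.eventually (gt_mem_nhds one_pos)
  filter_upwards [h3, self_mem_nhdsWithin] with δ h4 h5
  exact hbound δ h5 h4

end H60.FL
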